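import Pool.Agent.Helper66_Spread.Cross

set_option autoImplicit false

/-!
# MP_33b3f7_co: the optimal spreading parameter is nondecreasing in `r`

The largest maximiser `α*(N, m, r)` of the service rate `μ_s(α)` over the admissible range
`1 ≤ α ≤ min(r, ⌊N/m⌋)` is a nondecreasing function of `r`, for all `N ≥ 2` and `m ≥ 1`.
-/

namespace Pool.Agent.Results.MP_33b3f7_co.MonotoneSpreading

open Finset Pool.Agent.Helper66.Spread

/-- The harmonic number `H_n = 1 + 1/2 + ... + 1/n`, with `H_0 = 0`. -/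
noncomputable def H (n : ℕ) : ℝ := ∑ i ∈ Finset.range n, 1 / ((i : ℝ) + 1)

/-- The admissible range `1 ≤ α ≤ min(r, ⌊N/m⌋)`. -/
def Admissible (N m r a : ℕ) : Prop := 1 ≤ a ∧ a ≤ min r (N / m)

/-- The service rate
`μ_s(α) = μ α (N choose r)⁻¹ ∑_{j=α}^{min(r, mα)} (mα choose j)(N-mα choose r-j)/(H_j - H_{j-α})`. -/
noncomputable def muS (μ : ℝ) (N m r a : ℕ) : ℝ :=
  μ * a * ((N.choose r : ℝ))⁻¹ * ∑ j ∈ Finset.Icc a (min r (m * a)),
    ((m * a).choose j : ℝ) * ((N - m * a).choose (r - j) : ℝ) / (H j - H (j - a))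

/-- `α` is a maximiser of `μ_s` over the admissible range. -/
def IsMaximiser (μ : ℝ) (N m r a : ℕ) : Prop :=
  Admissible N m r a ∧ ∀ b : ℕ, Admissible N m r b → muS μ N m r b ≤ muS μ N m r a

/-- `α*(N, m, r)`, the largest maximiser. -/
noncomputable def alphaStar (μ : ℝ) (N m r : ℕ) : ℕ := sSup {a : ℕ | IsMaximiser μ N m r a}

theorem muS_eq {μ : ℝ} {N m r a : ℕ} (hr : r ≤ N) (_hma : m * a ≤ N) :
    muS μ N m r a = μ * ((N.choose r : ℝ))⁻¹ * G N m r a := by
  unfold muS G
  have hsub : Finset.Icc a (min r (m * a)) ⊆ Finset.range (N + 1) := by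
    intro j hj
    rw [Finset.mem_Icc] at hj
    rw [Finset.mem_range]
    have := le_trans hj.2 (min_le_left _ _)
    omega
  have h1 : ∑ j ∈ Finset.range (N + 1), wt (m * a) (N - m * a) r j * phi a j =
      ∑ j ∈ Finset.Icc a (min r (m * a)), wt (m * a) (N - m * a) r j * phi a j := by
    symm
    apply Finset.sum_subset hsub
    intro j _ hj
    rw [Finset.mem_Icc, not_and_or] at hj
    rcases hj with hj | hj
    · unfold phi
      rw [if_neg hj, mul_zero]
    · rcases Nat.lt_or_ge r j with h | h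
      · rw [wt_zero h, zero_mul]
      · have : m * a < j := by
          by_contra hcon
          exact hj (le_min h (not_lt.mp hcon))
        unfold wt
        rw [Nat.choose_eq_zero_of_lt this]
        simp
  rw [h1, Finset.mul_sum, Finset.mul_sum]
  apply Finset.sum_congr rfl
  intro j hj
  rw [Finset.mem_Icc] at hj
  have hjr := le_trans hj.2 (min_le_left _ _)
  unfold wt phi
  rw [if_pos hjr, if_pos hj.1]
  have e : H j - H (j - a) = Hr j - Hr (j - a) := rfl
  rw [e]
  ring

theorem adm_ma {N m r a : ℕ} (h : Admissible N m r a) : m * a ≤ N := by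
  have := le_trans h.2 (min_le_right _ _)
  calc m * a ≤ m * (N / m) := Nat.mul_le_mul_left _ this
    _ ≤ N := Nat.mul_div_le N m

theorem greatest {μ : ℝ} {N m r : ℕ} (hne : {a : ℕ | IsMaximiser μ N m r a}.Nonempty) :
    IsGreatest {a : ℕ | IsMaximiser μ N m r a} (alphaStar μ N m r) := by
  have hb : BddAbove {a : ℕ | IsMaximiser μ N m r a} :=
    ⟨r, fun a ha => le_trans ha.1.2 (min_le_left _ _)⟩
  exact ⟨Nat.sSup_mem hne hb, fun a ha => le_csSup hb ha⟩

theorem exists_max {μ : ℝ} {N m r : ℕ} (hne : ∃ a, Admissible N m r a) :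
    {a : ℕ | IsMaximiser μ N m r a}.Nonempty := by
  obtain ⟨a1, ha1⟩ := hne
  obtain ⟨a0, h0, h1⟩ := Finset.exists_max_image (Finset.Icc 1 (min r (N / m)))
    (fun a => muS μ N m r a) ⟨a1, Finset.mem_Icc.mpr ha1⟩
  exact ⟨a0, Finset.mem_Icc.mp h0, fun b hb => h1 b (Finset.mem_Icc.mpr hb)⟩

/-- **The optimal spreading parameter is nondecreasing in `r`.** For `μ > 0`, `N ≥ 2` and `m ≥ 1`:
if `m ≤ N`, then for every `1 ≤ r ≤ N` the number `alphaStar μ N m r` is the largest maximiser of
`μ_s` over the admissible range; and `alphaStar μ N m r ≤ alphaStar μ N m r'` whenever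
`1 ≤ r ≤ r' ≤ N`. -/
theorem result (μ : ℝ) (hμ : 0 < μ) (N m : ℕ) (_hN : 2 ≤ N) (hm : 1 ≤ m) :
    (m ≤ N → ∀ r : ℕ, 1 ≤ r → r ≤ N →
      IsGreatest {a : ℕ | IsMaximiser μ N m r a} (alphaStar μ N m r)) ∧
    ∀ r r' : ℕ, 1 ≤ r → r ≤ r' → r' ≤ N → alphaStar μ N m r ≤ alphaStar μ N m r' := by
  constructor
  · intro hmN r hr _
    apply greatest
    apply exists_max
    exact ⟨1, le_refl 1, le_min hr ((Nat.one_le_div_iff (by omega)).mpr hmN)⟩
  · intro r r' hr hrr hr'
    rcases Set.eq_empty_or_nonempty {a : ℕ | IsMaximiser μ N m r a} with he | hne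
    · unfold alphaStar
      rw [he, csSup_empty]
      exact Nat.zero_le _
    · have hg := greatest hne
      obtain ⟨a1, ha1⟩ := hne
      have hne' : {a : ℕ | IsMaximiser μ N m r' a}.Nonempty := by
        apply exists_max
        exact ⟨a1, ha1.1.1, le_trans ha1.1.2 (min_le_min_right _ hrr)⟩
      have hg' := greatest hne'
      by_contra hcon
      rw [not_le] at hcon
      set b := alphaStar μ N m r with hb
      set a' := alphaStar μ N m r' with ha'
      have hbm : IsMaximiser μ N m r b := hg.1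
      have ham : IsMaximiser μ N m r' a' := hg'.1
      have hbN := adm_ma hbm.1
      have haN : m * a' ≤ N := adm_ma ham.1
      have hbr : b ≤ r := le_trans hbm.1.2 (min_le_left _ _)
      have ha1' : 1 ≤ a' := ham.1.1
      have hadm : Admissible N m r a' := ⟨ha1', le_trans hcon.le hbm.1.2⟩
      have hbadm : Admissible N m r' b := ⟨hbm.1.1, le_trans hbm.1.2 (min_le_min_right _ hrr)⟩
      have h1 := hbm.2 a' hadm
      rw [muS_eq (by omega) haN, muS_eq (by omega) hbN] at h1
      have hc : 0 < μ * ((N.choose r : ℝ))⁻¹ := by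
        have : 0 < N.choose r := Nat.choose_pos (by omega)
        positivity
      have h2 : G N m r a' ≤ G N m r b := le_of_mul_le_mul_left h1 hc
      have h3 := cross_all hm ha1' hcon hbN hrr hr' hbr h2
      have h4 : muS μ N m r' a' ≤ muS μ N m r' b := by
        rw [muS_eq hr' haN, muS_eq hr' hbN]
        exact mul_le_mul_of_nonneg_left h3 (by positivity)
      have h5 : IsMaximiser μ N m r' b := ⟨hbadm, fun c hc => le_trans (ham.2 c hc) h4⟩
      have h6 : b ≤ a' := hg'.2 h5
      omega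

end Pool.Agent.Results.MP_33b3f7_co.MonotoneSpreading
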